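import Pool.Agent.MWHP.StmtsN

/-!
# Squad MWHP, row D2N: every congruence above `β` is determined by two letter words (period n)
-/

set_option autoImplicit false

namespace Pool.Agent.MWHP.H2

open Pool.Agent.Helper14_MV Pool.Agent.Helper2_MV Pool.Agent.MVO Pool.Agent.MWL Pool.Agent.MWS
open Pool.Agent.MWA Pool.Agent.MWH

theorem blkOk_r2 {k : ℕ} {B : ℕ → List ℕ} (x y : ℕ) (hB : BlkOk k B) : BlkOk k (r2 x y B) :=
  fun j hj c hc => hB j hj c (List.mem_of_mem_filter hc)

theorem r2_count {x y : ℕ} (B : ℕ → List ℕ) (j : ℕ) : (r2 x y B j).count x = (B j).count x := by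
  unfold r2
  exact List.count_filter (by simp)

theorem filter_r2 {k : ℕ} {B : ℕ → List ℕ} (x y : ℕ) (hB : BlkOk k B) :
    (asm k B).filter (fun c => decide (c = x ∨ c = y) || decide (2 ≤ c ∧ c ≤ k + 1)) =
      asm k (r2 x y B) := by
  rw [asm_filter _ (fun c h1 h2 => by simp [h1, h2])]
  refine asm_congr fun j hj => ?_
  unfold r2
  refine List.filter_congr fun c hc => ?_
  have h1 : decide (2 ≤ c ∧ c ≤ k + 1) = false := decide_eq_false (hB j hj c hc)
  rw [h1, Bool.or_false]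

theorem rr_r2 {θ : FIC} {k : ℕ} {B B' : ℕ → List ℕ} (x y : ℕ) (hB : BlkOk k B)
    (hB' : BlkOk k B') (h : RR θ (asm k B) (asm k B')) :
    RR θ (asm k (r2 x y B)) (asm k (r2 x y B')) := by
  rw [← filter_r2 x y hB, ← filter_r2 x y hB']
  exact h.filter _

theorem d2n (h1 : MVO.OneStmt) (h2 : ShnStmt) : D2nStmt := by
  intro n β hβ hS θ hθ hN k B B' hB hB' hr
  have hL : ∀ x, NS k x → L1 θ k (ty B x) (ty B' x) := by
    intro x hx
    have hy : NS k (k + 2 + x) := fun h => by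
      have h3 := h.2
      omega
    have h3 := h1.1 θ k (r2 x (k + 2 + x) B) (r2 x (k + 2 + x) B') x hx (blkOk_r2 _ _ hB.ok)
      (blkOk_r2 _ _ hB'.ok) (hr x (k + 2 + x) hx hy (by omega))
    have h4 : ∀ D : ℕ → List ℕ, (fun j => (r2 x (k + 2 + x) D j).count x) = ty D x :=
      fun D => funext fun j => r2_count D j
    rw [h4, h4] at h3
    exact h3
  obtain ⟨C, C', hC, hC', -, -, hsh, h5, h6⟩ := h2 n β θ hβ hθ hN k B B' hB hB' hL
  have h7 : RR θ (asm k C) (asm k C') := by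
    refine hS θ hθ hN k C C' hC hC' hsh fun x y hx hy hxy => ?_
    exact θ.trans (θ.trans (rr_r2 x y hB.ok hC.ok h5).symm (hr x y hx hy hxy))
      (rr_r2 x y hB'.ok hC'.ok h6)
  exact θ.trans (θ.trans h5 h7) h6.symm

end Pool.Agent.MWHP.H2
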